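import Pool.Agent.Helper89.TT.Basic
import Pool.Agent.Helper89.TT.Stmts2

set_option autoImplicit false

open Finset

namespace Pool.Agent.Helper89.TT

/-- bounds by the binary logarithm -/
theorem b1_log {x i : ℕ} (hx : 0 < x) (h : Nat.log 2 x = i) : 2 ^ i ≤ x ∧ x ≤ 2 * 2 ^ i := by
  have h1 := Nat.pow_log_le_self 2 hx.ne'
  have h2 := Nat.lt_pow_succ_log_self (by norm_num : 1 < 2) x
  rw [h] at h1 h2
  rw [pow_succ] at h2
  exact ⟨h1, by omega⟩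

/-- positivity of the entries of a tuple -/
theorem b1_pos {S G N Y a a' b b' g g' d d' : ℕ} (h : Tup S G N Y a a' b b' g g' d d') :
    0 < a ∧ 0 < a' ∧ 0 < b ∧ 0 < b' ∧ 0 < g ∧ 0 < g' ∧ 0 < d ∧ 0 < d' := by
  obtain ⟨ha, hb, hg, hd', -, -, -, -, h1, h2, h3, h4, -⟩ := h
  have p1 : 0 < a' * b' := lt_of_le_of_lt (Nat.zero_le _) h1
  have p2 : 0 < a' * g' := lt_of_le_of_lt (Nat.zero_le _) h2
  have p3 : 0 < g * d := lt_of_le_of_lt (Nat.zero_le _) h3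
  exact ⟨ha, Nat.pos_of_mul_pos_right p1, hb, Nat.pos_of_mul_pos_left p1, hg,
    Nat.pos_of_mul_pos_left p2, Nat.pos_of_mul_pos_left p3, hd'⟩

/-- the ratio in the lattice lemma -/
theorem b1_ratio {W p p' x y z : ℝ} (hx : 0 < x) (hy : 0 < y) (hz : 0 ≤ z) (hp : x ≤ p)
    (hp' : y ≤ p') (hW : W = 4 * (x * z)) : 1 + W / (p * p') ≤ 4 * (1 + z / y) := by
  have h1 : W / (p * p') ≤ 4 * (x * z) / (x * y) := by
    rw [hW]
    refine div_le_div_of_nonneg_left (by positivity) (by positivity) ?_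
    exact mul_le_mul hp hp' hy.le (hx.le.trans hp)
  have h2 : 4 * (x * z) / (x * y) = 4 * (z / y) := by
    field_simp
  rw [h2] at h1
  linarith

/-- B1 -/
theorem st_B1 (h1 : ST_XY) (h2 : ST_LL) : ST_B1 := by
  classical
  intro ε hε
  obtain ⟨C₁, hC₁, hX⟩ := h1 (ε / 3) (by positivity) 12
  obtain ⟨C₂, hC₂, hL⟩ := h2 (ε / 3) (by positivity) 12
  have hC11 : (1 : ℝ) ≤ 64 * C₁ * C₂ ^ 2 := by
    have h3 : (1 : ℝ) ≤ C₂ ^ 2 := one_le_pow₀ hC₂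
    have h4 : (1 : ℝ) * 1 ≤ C₁ * C₂ ^ 2 := mul_le_mul hC₁ h3 zero_le_one (by linarith)
    linarith
  refine ⟨64 * C₁ * C₂ ^ 2, hC11, ?_⟩
  intro N S G Y hN hS hG i i' j j' k k' l l' E hE
  have hN0 : (0 : ℝ) < N := by exact_mod_cast hN
  have hS1 : (1 : ℝ) ≤ S := by exact_mod_cast hS
  have hG1 : (1 : ℝ) ≤ G := by exact_mod_cast hG
  have hN12 : 3 * N ≤ 12 * N ^ 12 := by
    have : N ^ 1 ≤ N ^ 12 := Nat.pow_le_pow_right hN (by norm_num)
    rw [pow_one] at this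
    omega
  obtain ⟨E1, hE1⟩ : ∃ E1 : ℝ, E1 = (N : ℝ) ^ (ε / 3) := ⟨_, rfl⟩
  have hE10 : 0 < E1 := by rw [hE1]; positivity
  have hpow : E1 ^ 3 = (N : ℝ) ^ ε := by
    rw [hE1, ← Real.rpow_natCast, ← Real.rpow_mul hN0.le]
    congr 1
    push_cast
    ring
  rcases E.eq_empty_or_nonempty with hem | ⟨e₀, he₀⟩
  · rw [hem, Finset.card_empty]
    have : (0 : ℝ) < C₁ := by linarith
    have : (0 : ℝ) < C₂ := by linarith
    push_cast
    positivity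
  -- the size of `2 ^ i' * 2 ^ j'`
  have hW0 : 4 * (2 ^ i' * 2 ^ j') ≤ 12 * N ^ 12 := by
    obtain ⟨hT, hB⟩ := hE e₀ he₀
    obtain ⟨pa, pa', pb, pb', pg, pg', pd, pd'⟩ := b1_pos hT
    obtain ⟨-, -, -, -, -, -, -, -, -, -, -, -, -, -, -, -, -, -, -, -, -, -, h3, -⟩ := hT
    obtain ⟨-, q2, -, q4, -⟩ := hB
    have r2 := (b1_log pa' q2).1
    have r4 := (b1_log pb' q4).1
    have r5 := Nat.mul_le_mul r2 r4
    have r6 : 1 ≤ e₀.2.2.1.1 * e₀.2.2.2.1 := Nat.mul_pos pg pd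
    have r7 := Nat.mul_le_mul r5 r6
    rw [mul_one] at r7
    have r8 : N ≤ N ^ 12 := by
      have : N ^ 1 ≤ N ^ 12 := Nat.pow_le_pow_right hN (by norm_num)
      rwa [pow_one] at this
    omega
  -- first two pairs
  have s1 : (((E.image (fun e => (e.1, e.2.1))).card : ℕ) : ℝ) ≤
      C₁ * E1 * (S : ℝ) ^ 2 * (4 * ((2 : ℝ) ^ i' * 2 ^ j')) := by
    have := hX N S (4 * (2 ^ i' * 2 ^ j')) hN hS hW0 (E.image (fun e => (e.1, e.2.1))) ?_
    · rw [← hE1] at this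
      push_cast at this
      exact this
    · intro z hz
      obtain ⟨e, he, rfl⟩ := Finset.mem_image.1 hz
      obtain ⟨hT, hB⟩ := hE e he
      obtain ⟨pa, pa', pb, pb', pg, pg', pd, pd'⟩ := b1_pos hT
      obtain ⟨-, -, -, -, -, -, -, -, t1, -, -, -, t2, t3, -⟩ := hT
      obtain ⟨-, q2, -, q4, -⟩ := hB
      refine ⟨pa, pb, t1, ?_, t2, t3⟩
      have r5 := Nat.mul_le_mul (b1_log pa' q2).2 (b1_log pb' q4).2
      refine r5.trans (le_of_eq (by ring))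
  -- third pair
  have s2 : ∀ q ∈ E.image (fun e => (e.1, e.2.1)),
      ((E.filter (fun e => (e.1, e.2.1) = q)).card : ℝ) ≤
      (C₂ * E1 * ((S : ℝ) * G) ^ 11 * (4 * (1 + 2 ^ k' / 2 ^ i))) *
        (C₂ * E1 * ((S : ℝ) * G) ^ 11 * (4 * (1 + 2 ^ l / 2 ^ j'))) := by
    intro q hq
    obtain ⟨e₁, he₁, rfl⟩ := Finset.mem_image.1 hq
    obtain ⟨hT₁, hB₁⟩ := hE e₁ he₁
    obtain ⟨pa, pa', pb, pb', pg, pg', pd, pd'⟩ := b1_pos hT₁
    have hT₁' := hT₁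
    obtain ⟨-, -, -, -, c1, -, -, -, -, -, -, -, -, -, -, -, -, -, -, -, -, -, h3, h4, -⟩ := hT₁
    obtain ⟨q1, q2, q3, q4, -⟩ := hB₁
    have x1 := (b1_log pa q1).1
    have x2 := (b1_log pa' q2).1
    have x3 := (b1_log pb q3).1
    have x4 := (b1_log pb' q4).1
    -- sizes of the entries
    have y1 : e₁.1.2 ≤ 3 * N := by
      calc e₁.1.2 = e₁.1.2 * 1 * (1 * 1) := by ring
        _ ≤ e₁.1.2 * e₁.2.1.2 * (e₁.2.2.1.1 * e₁.2.2.2.1) := by gcongr <;> omega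
        _ ≤ 3 * N := h3
    have y2 : e₁.2.1.2 ≤ 3 * N := by
      calc e₁.2.1.2 = 1 * e₁.2.1.2 * (1 * 1) := by ring
        _ ≤ e₁.1.2 * e₁.2.1.2 * (e₁.2.2.1.1 * e₁.2.2.2.1) := by gcongr <;> omega
        _ ≤ 3 * N := h3
    have y3 : e₁.2.1.1 ≤ 3 * N := by
      calc e₁.2.1.1 = 1 * 1 * (e₁.2.1.1 * 1) := by ring
        _ ≤ e₁.1.2 * e₁.2.2.1.2 * (e₁.2.1.1 * e₁.2.2.2.1) := by gcongr <;> omega
        _ ≤ 3 * N := h4
    have y4 : e₁.1.1 ≤ 3 * N := by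
      have z1 : e₁.1.1 * e₁.2.1.1 < e₁.1.2 * e₁.2.1.2 := by
        obtain ⟨-, -, -, -, -, -, -, -, t1, -⟩ := hT₁'
        exact t1
      calc e₁.1.1 = e₁.1.1 * 1 := by ring
        _ ≤ e₁.1.1 * e₁.2.1.1 := by gcongr; omega
        _ ≤ e₁.1.2 * e₁.2.1.2 := z1.le
        _ = e₁.1.2 * e₁.2.1.2 * (1 * 1) := by ring
        _ ≤ e₁.1.2 * e₁.2.1.2 * (e₁.2.2.1.1 * e₁.2.2.2.1) := by gcongr <;> omega
        _ ≤ 3 * N := h3
    have cop1 : Nat.Coprime e₁.1.2 e₁.1.1 := by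
      have := Nat.Coprime.coprime_dvd_left (Dvd.intro _ rfl : e₁.1.1 ∣ e₁.1.1 * e₁.2.1.1) c1
      exact (Nat.Coprime.coprime_dvd_right (Dvd.intro _ rfl : e₁.1.2 ∣ e₁.1.2 * e₁.2.1.2)
        this).symm
    have cop2 : Nat.Coprime e₁.2.1.1 e₁.2.1.2 := by
      have := Nat.Coprime.coprime_dvd_left (Dvd.intro_left _ rfl : e₁.2.1.1 ∣ e₁.1.1 * e₁.2.1.1) c1
      exact Nat.Coprime.coprime_dvd_right (Dvd.intro_left _ rfl : e₁.2.1.2 ∣ e₁.1.2 * e₁.2.1.2)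
        this
    refine fib_le _ (fun e : (ℕ × ℕ) × (ℕ × ℕ) × (ℕ × ℕ) × ℕ × ℕ =>
      (e.2.2.1.2, e.2.2.1.1)) _ _ ?_ (by
        have : (0 : ℝ) < C₂ := by linarith
        positivity) ?_
    · -- the pairs `(g', g)`
      have := hL N S G (4 * (2 ^ i' * 2 ^ k')) e₁.1.2 e₁.1.1 hN hS hG pa' pa
        (y1.trans hN12) (y4.trans hN12) cop1
        ((E.filter (fun e => (e.1, e.2.1) = (e₁.1, e₁.2.1))).image
          (fun e : (ℕ × ℕ) × (ℕ × ℕ) × (ℕ × ℕ) × ℕ × ℕ => (e.2.2.1.2, e.2.2.1.1))) ?_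
      · refine this.trans ?_
        rw [← hE1]
        refine mul_le_mul_of_nonneg_left ?_ (by
          have : (0 : ℝ) < C₂ := by linarith
          positivity)
        refine b1_ratio (x := 2 ^ i') (y := 2 ^ i) (z := 2 ^ k') (by positivity) (by positivity)
          (by positivity) (by exact_mod_cast x2) (by exact_mod_cast x1) (by push_cast; ring)
      · intro z hz
        obtain ⟨e, he, rfl⟩ := Finset.mem_image.1 hz
        rw [Finset.mem_filter] at he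
        obtain ⟨he, heq⟩ := he
        have a1 : e.1 = e₁.1 := (Prod.mk.inj heq).1
        have a2 : e.2.1 = e₁.2.1 := (Prod.mk.inj heq).2
        obtain ⟨hT, hB⟩ := hE e he
        obtain ⟨ra, ra', rb, rb', rg, rg', rd, rd'⟩ := b1_pos hT
        obtain ⟨-, -, -, -, -, t0, -, -, -, t1, -, -, -, -, t2, t3, -⟩ := hT
        obtain ⟨-, -, -, -, -, q6, -⟩ := hB
        rw [a1] at t0 t1 t2 t3
        refine ⟨rg, t1, ?_, ?_, t2, t3⟩
        · have r5 := Nat.mul_le_mul (b1_log pa' q2).2 (b1_log rg' q6).2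
          exact r5.trans (le_of_eq (by ring))
        · have t4 : Nat.gcd (e₁.1.2 * e.2.2.1.2) (e₁.1.1 * e.2.2.1.1) = 1 := t0.symm
          simp only
          rw [t4]
          exact hG
    · -- the pairs `(d, d')`
      intro r hr
      refine card_le_of_inj _ (fun e : (ℕ × ℕ) × (ℕ × ℕ) × (ℕ × ℕ) × ℕ × ℕ => e.2.2.2) _ ?_ ?_
      · intro x hx y hy hxy
        rw [Finset.mem_filter, Finset.mem_filter] at hx hy
        obtain ⟨⟨-, x1⟩, x2⟩ := hx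
        obtain ⟨⟨-, y1⟩, y2⟩ := hy
        have u1 : x.1 = y.1 := (Prod.mk.inj (x1.trans y1.symm)).1
        have u2 : x.2.1 = y.2.1 := (Prod.mk.inj (x1.trans y1.symm)).2
        have u3 := Prod.mk.inj (x2.trans y2.symm)
        exact Prod.ext u1 (Prod.ext u2 (Prod.ext (Prod.ext u3.2 u3.1) hxy))
      · have := hL N S G (4 * (2 ^ j * 2 ^ l)) e₁.2.1.1 e₁.2.1.2 hN hS hG pb pb'
          (y3.trans hN12) (y2.trans hN12) cop2
          (((E.filter (fun e => (e.1, e.2.1) = (e₁.1, e₁.2.1))).filter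
            (fun e => (e.2.2.1.2, e.2.2.1.1) = r)).image
            (fun e : (ℕ × ℕ) × (ℕ × ℕ) × (ℕ × ℕ) × ℕ × ℕ => e.2.2.2)) ?_
        · refine this.trans ?_
          rw [← hE1]
          refine mul_le_mul_of_nonneg_left ?_ (by
            have : (0 : ℝ) < C₂ := by linarith
            positivity)
          refine b1_ratio (x := 2 ^ j) (y := 2 ^ j') (z := 2 ^ l) (by positivity) (by positivity)
            (by positivity) (by exact_mod_cast x3) (by exact_mod_cast x4) (by push_cast; ring)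
        · intro z hz
          obtain ⟨e, he, rfl⟩ := Finset.mem_image.1 hz
          rw [Finset.mem_filter, Finset.mem_filter] at he
          obtain ⟨⟨he, heq⟩, -⟩ := he
          have a2 : e.2.1 = e₁.2.1 := (Prod.mk.inj heq).2
          obtain ⟨hT, hB⟩ := hE e he
          obtain ⟨ra, ra', rb, rb', rg, rg', rd, rd'⟩ := b1_pos hT
          obtain ⟨-, -, -, -, -, -, -, -, -, -, -, t1, -, -, -, -, -, -, t2, t3, -, t4, -⟩ := hT
          obtain ⟨-, -, -, -, -, -, q7, -⟩ := hB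
          rw [a2] at t1 t2 t3 t4
          refine ⟨rd', t1, ?_, t4, t2, t3⟩
          have r5 := Nat.mul_le_mul (b1_log pb q3).2 (b1_log rd q7).2
          exact r5.trans (le_of_eq (by ring))
  have hA := fib_le E (fun e => (e.1, e.2.1)) _ _ s1 (by
    have : (0 : ℝ) < C₂ := by linarith
    positivity) s2
  refine hA.trans ?_
  have hC10 : (0 : ℝ) < C₁ := by linarith
  have hC20 : (0 : ℝ) < C₂ := by linarith
  have hSG : (S : ℝ) ^ 2 ≤ ((S : ℝ) * G) ^ 2 :=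
    pow_le_pow_left₀ (by linarith) (by nlinarith) 2
  calc C₁ * E1 * (S : ℝ) ^ 2 * (4 * ((2 : ℝ) ^ i' * 2 ^ j')) *
        ((C₂ * E1 * ((S : ℝ) * G) ^ 11 * (4 * (1 + 2 ^ k' / 2 ^ i))) *
          (C₂ * E1 * ((S : ℝ) * G) ^ 11 * (4 * (1 + 2 ^ l / 2 ^ j')))) =
      (64 * C₁ * C₂ ^ 2 * ((S : ℝ) * G) ^ 22 * E1 ^ 3 * ((2 : ℝ) ^ i' * 2 ^ j') *
        (1 + 2 ^ k' / 2 ^ i) * (1 + 2 ^ l / 2 ^ j')) * (S : ℝ) ^ 2 := by ring
    _ ≤ (64 * C₁ * C₂ ^ 2 * ((S : ℝ) * G) ^ 22 * E1 ^ 3 * ((2 : ℝ) ^ i' * 2 ^ j') *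
        (1 + 2 ^ k' / 2 ^ i) * (1 + 2 ^ l / 2 ^ j')) * ((S : ℝ) * G) ^ 2 :=
      mul_le_mul_of_nonneg_left hSG (by positivity)
    _ = 64 * C₁ * C₂ ^ 2 * ((S : ℝ) * G) ^ 24 * E1 ^ 3 * ((2 : ℝ) ^ i' * 2 ^ j') *
        (1 + 2 ^ k' / 2 ^ i) * (1 + 2 ^ l / 2 ^ j') := by ring
    _ = _ := by rw [hpow]

end Pool.Agent.Helper89.TT
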