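import Pool.Agent.Helper89.TT.Basic

set_option autoImplicit false

open Finset

namespace Pool.Agent.Helper89.TT

/-- the pairs `(U, V)` with `U + V`, `U - V` squares up to factors `≤ S` -/
theorem xy_pairs (S W : ℕ) (I : Finset (ℕ × ℕ)) (h : ∀ p ∈ I, 0 < p.2 ∧ p.2 < p.1 ∧ p.1 ≤ W ∧
    SS S (p.1 + p.2) ∧ SS S (p.1 - p.2)) : (I.card : ℝ) ≤ 2 * (S : ℝ) ^ 2 * W := by
  classical
  have h1 : I ⊆ (((Finset.Icc 1 S ×ˢ Finset.Icc 1 (Nat.sqrt (2 * W))) ×ˢ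
      (Finset.Icc 1 S ×ˢ Finset.Icc 1 (Nat.sqrt W))).image
      (fun q : (ℕ × ℕ) × (ℕ × ℕ) => ((q.1.1 * q.1.2 ^ 2 + q.2.1 * q.2.2 ^ 2) / 2,
        (q.1.1 * q.1.2 ^ 2 - q.2.1 * q.2.2 ^ 2) / 2))) := by
    intro p hp
    obtain ⟨h2, h3, h4, ⟨s, P, s1, s2, s3⟩, ⟨s', Q, t1, t2, t3⟩⟩ := h p hp
    refine Finset.mem_image.2 ⟨((s, P), (s', Q)), ?_, ?_⟩
    · have hP : 0 < P := by
        rcases Nat.eq_zero_or_pos P with h0 | h0
        · subst h0
          simp at s3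
          omega
        · exact h0
      have hQ : 0 < Q := by
        rcases Nat.eq_zero_or_pos Q with h0 | h0
        · subst h0
          simp at t3
          omega
        · exact h0
      have hP2 : P ^ 2 ≤ 2 * W := by
        have : 1 * P ^ 2 ≤ s * P ^ 2 := Nat.mul_le_mul_right _ s1
        omega
      have hQ2 : Q ^ 2 ≤ W := by
        have : 1 * Q ^ 2 ≤ s' * Q ^ 2 := Nat.mul_le_mul_right _ t1
        omega
      simp only [Finset.mem_product, Finset.mem_Icc]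
      exact ⟨⟨⟨s1, s2⟩, hP, Nat.le_sqrt'.2 hP2⟩, ⟨t1, t2⟩, hQ, Nat.le_sqrt'.2 hQ2⟩
    · simp only
      rw [← s3, ← t3]
      refine Prod.ext ?_ ?_
      · simp only
        omega
      · simp only
        omega
  have h2 := (Finset.card_le_card h1).trans Finset.card_image_le
  rw [Finset.card_product, Finset.card_product, Finset.card_product, Nat.card_Icc, Nat.card_Icc,
    Nat.card_Icc, Nat.add_sub_cancel, Nat.add_sub_cancel, Nat.add_sub_cancel] at h2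
  have h3 : (I.card : ℝ) ≤ (S * (Nat.sqrt (2 * W) : ℝ)) * (S * (Nat.sqrt W : ℝ)) := by
    exact_mod_cast h2
  have h4 : (Nat.sqrt (2 * W) : ℝ) ≤ Real.sqrt (2 * W) := by
    have := Real.nat_sqrt_le_real_sqrt (a := 2 * W)
    push_cast at this
    exact this
  have h5 : (Nat.sqrt W : ℝ) ≤ Real.sqrt W := Real.nat_sqrt_le_real_sqrt
  have h6 : Real.sqrt (2 * W) * Real.sqrt W ≤ 2 * W := by
    have hW : (0 : ℝ) ≤ W := Nat.cast_nonneg W
    have h7 : Real.sqrt (2 * W) ≤ 2 * Real.sqrt W := by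
      rw [show (2 : ℝ) * Real.sqrt W = Real.sqrt (4 * W) by
        rw [show (4 : ℝ) * W = 2 ^ 2 * W by norm_num, Real.sqrt_mul (by norm_num),
          Real.sqrt_sq (by norm_num)]]
      exact Real.sqrt_le_sqrt (by linarith)
    have h8 : Real.sqrt W * Real.sqrt W = W := Real.mul_self_sqrt hW
    have h9 : 0 ≤ Real.sqrt W := Real.sqrt_nonneg _
    nlinarith
  have h7 : (Nat.sqrt (2 * W) : ℝ) * (Nat.sqrt W : ℝ) ≤ 2 * W :=
    (mul_le_mul h4 h5 (Nat.cast_nonneg _) (Real.sqrt_nonneg _)).trans h6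
  have h8 : (0 : ℝ) ≤ (S : ℝ) ^ 2 := by positivity
  calc (I.card : ℝ) ≤ (S * (Nat.sqrt (2 * W) : ℝ)) * (S * (Nat.sqrt W : ℝ)) := h3
    _ = (S : ℝ) ^ 2 * ((Nat.sqrt (2 * W) : ℝ) * (Nat.sqrt W : ℝ)) := by ring
    _ ≤ (S : ℝ) ^ 2 * (2 * W) := mul_le_mul_of_nonneg_left h7 h8
    _ = 2 * (S : ℝ) ^ 2 * W := by ring

/-- XY: pairs of pairs -/
theorem st_XY (h1 : ST_DV) : ST_XY := by
  classical
  intro ε hε j
  obtain ⟨C₀, hC₀, hD⟩ := h1 (ε / 2) (by positivity) j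
  refine ⟨2 * C₀ ^ 2, by nlinarith, ?_⟩
  intro N S W hN hS hW Z hZ
  have hN0 : (0 : ℝ) < N := by exact_mod_cast hN
  have hpow : ((N : ℝ) ^ (ε / 2)) ^ 2 = (N : ℝ) ^ ε := by
    rw [← Real.rpow_natCast, ← Real.rpow_mul hN0.le]
    congr 1
    push_cast
    ring
  have hA := fib_le Z (fun z : (ℕ × ℕ) × ℕ × ℕ => (z.1.2 * z.2.2, z.1.1 * z.2.1))
    (2 * (S : ℝ) ^ 2 * W) ((C₀ * (N : ℝ) ^ (ε / 2)) ^ 2) ?_ (by positivity) ?_
  · refine hA.trans (le_of_eq ?_)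
    rw [mul_pow, hpow]
    ring
  · refine xy_pairs S W _ ?_
    intro p hp
    obtain ⟨z, hz, rfl⟩ := Finset.mem_image.1 hp
    obtain ⟨z1, z2, z3, z4, z5, z6⟩ := hZ z hz
    exact ⟨Nat.mul_pos z1 z2, z3, z4, z5, z6⟩
  · intro p hp
    obtain ⟨z, hz, rfl⟩ := Finset.mem_image.1 hp
    obtain ⟨z1, z2, z3, z4, z5, z6⟩ := hZ z hz
    obtain ⟨U, hU⟩ : ∃ U, U = z.1.2 * z.2.2 := ⟨_, rfl⟩
    obtain ⟨V, hV⟩ : ∃ V, V = z.1.1 * z.2.1 := ⟨_, rfl⟩
    have hV0 : 0 < V := by rw [hV]; exact Nat.mul_pos z1 z2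
    have hU0 : 0 < U := by rw [hU]; omega
    have hUW : U ≤ j * N ^ j := by rw [hU]; exact z4.trans hW
    have hVW : V ≤ j * N ^ j := by rw [hV]; omega
    rw [← hU, ← hV]
    have hd1 := hD N hN U hU0 hUW
    have hd2 := hD N hN V hV0 hVW
    refine card_le_of_inj _ (fun z : (ℕ × ℕ) × ℕ × ℕ => (z.1.2, z.1.1)) _ ?_ ?_
    · intro x hx y hy hxy
      rw [Finset.mem_filter] at hx hy
      obtain ⟨hx0, hx1⟩ := hx
      obtain ⟨hy0, hy1⟩ := hy
      have a1 := (Prod.mk.inj hx1).1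
      have a2 := (Prod.mk.inj hx1).2
      have b1 := (Prod.mk.inj hy1).1
      have b2 := (Prod.mk.inj hy1).2
      have c1 := (Prod.mk.inj hxy).1
      have c2 := (Prod.mk.inj hxy).2
      have p1 : 0 < x.1.1 := (hZ x hx0).1
      have p2 : 0 < x.1.2 := by
        rcases Nat.eq_zero_or_pos x.1.2 with h0 | h0
        · rw [h0, zero_mul] at a1
          omega
        · exact h0
      have e1 : x.2.2 = y.2.2 := by
        rw [← c1, ← a1] at b1
        exact (Nat.eq_of_mul_eq_mul_left p2 b1).symm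
      have e2 : x.2.1 = y.2.1 := by
        rw [← c2, ← a2] at b2
        exact (Nat.eq_of_mul_eq_mul_left p1 b2).symm
      exact Prod.ext (Prod.ext c2 c1) (Prod.ext e2 e1)
    · have hsub : (Z.filter (fun x : (ℕ × ℕ) × ℕ × ℕ => (x.1.2 * x.2.2, x.1.1 * x.2.1) =
          (U, V))).image (fun z : (ℕ × ℕ) × ℕ × ℕ => (z.1.2, z.1.1)) ⊆
          U.divisors ×ˢ V.divisors := by
        intro q hq
        obtain ⟨x, hx, rfl⟩ := Finset.mem_image.1 hq
        rw [Finset.mem_filter] at hx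
        have a1 := (Prod.mk.inj hx.2).1
        have a2 := (Prod.mk.inj hx.2).2
        rw [Finset.mem_product, Nat.mem_divisors, Nat.mem_divisors]
        exact ⟨⟨⟨_, a1.symm⟩, hU0.ne'⟩, ⟨⟨_, a2.symm⟩, hV0.ne'⟩⟩
      have hc := Finset.card_le_card hsub
      rw [Finset.card_product] at hc
      have hc' : ((((Z.filter (fun x : (ℕ × ℕ) × ℕ × ℕ => (x.1.2 * x.2.2, x.1.1 * x.2.1) =
          (U, V))).image (fun z : (ℕ × ℕ) × ℕ × ℕ => (z.1.2, z.1.1))).card : ℕ) : ℝ) ≤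
          (U.divisors.card : ℝ) * V.divisors.card := by exact_mod_cast hc
      refine hc'.trans ?_
      rw [sq]
      exact mul_le_mul hd1 hd2 (Nat.cast_nonneg _) (by positivity)

end Pool.Agent.Helper89.TT
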